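import Pool.Agent.Work.MP_b2b647_co.Pull
import Pool.Agent.Work.MP_b2b647_co.Word
import Pool.Agent.Work.MP_b2b647_co.Data.Refute

/-!
A disproof: for every sufficiently large `r`, the base polytope of the tipless binary spike of rank
`r` (a matroid on `2 r` elements represented over the field with two elements) has no unimodular
flag triangulation.

Outline.  A unimodular flag triangulation gives, for all lattice points `w` of `k P`, exactly one
multiset of `k` pairwise joined vertices with sum `w` (Geo.lean).  By Ramsey's theorem for
5-subsets of the set of legs (Ramsey.lean) the pattern of joined pairs of bases that agree with the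
default state (first element used, second element not used) outside five legs is, on six suitable
legs, independent of the choice of the five legs (Pull.lean).  The resulting finite system of
conditions on the 176 bases of the spike of rank five is contradictory, which is checked by the
kernel with a clausal refutation (Check.lean, Sem.lean, SemCheck.lean, Data).
-/

namespace Pool.Agent.Results.MP_b2b647_co.SpikeCounterexample

open Pool.Agent.Work.MP_b2b647_co

/-- For all sufficiently large `r`, the function `spikeRank r` is an integer polymatroid (indeed
the rank function of a matroid, as it is bounded by the cardinality), and its base polytope has no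
unimodular flag triangulation. -/
theorem result : ∃ r₀ : ℕ, ∀ r : ℕ, r₀ ≤ r →
    IsIntegerPolymatroid (spikeRank r) ∧
    (∀ S : Finset (Fin (2 * r)), spikeRank r S ≤ S.card) ∧
    ¬ ∃ K : Geometry.SimplicialComplex ℝ (Fin (2 * r) → ℝ),
      IsUnimodularFlagTriangulation (basePolytope (spikeRank r)) K := by
  obtain ⟨N0, hN0⟩ := exists_sys Check.vt isWordTrie_vt
  refine ⟨N0, fun r hr => ⟨spikeRank_polymatroid r, spikeRank_le_card r, ?_⟩⟩
  rintro ⟨K, hK⟩
  obtain ⟨R, hR⟩ := hN0 r hr K hK
  exact Check.refute hR

end Pool.Agent.Results.MP_b2b647_co.SpikeCounterexample
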